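import Mathlib

/-!
# MP_816335_an: no syndetic set is a weak interpolation set of order 2 for the class of totally
transitive systems
-/

namespace Pool.Agent.Results.MP_816335_an.NoSyndeticOrderTwo

open Set Topology Filter

/-- syndetic subsets of `ℕ = {1, 2, ...}` -/
def Syndetic (S : Set ℕ) : Prop := ∃ L : ℕ, ∀ n ≥ 1, ∃ k ∈ S, n ≤ k ∧ k ≤ n + L

/-- topological transitivity -/
def TopTransitive {X : Type} [TopologicalSpace X] (T : X → X) : Prop :=
  ∀ U V : Set X, IsOpen U → IsOpen V → U.Nonempty → V.Nonempty →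
    ∃ n ≥ 1, (U ∩ T^[n] ⁻¹' V).Nonempty

/-- total transitivity -/
def TotallyTransitive {X : Type} [TopologicalSpace X] (T : X → X) : Prop :=
  ∀ m ≥ 1, TopTransitive (T^[m])

/-- weak interpolation sets of order `k` for the class of totally transitive systems -/
def WeakInterpolation (S : Set ℕ) (k : ℕ) : Prop :=
  ∀ f : ℕ → ℕ, (∀ n ∈ S, f n < k) → ∃ (X : Type) (_ : MetricSpace X) (_ : CompactSpace X)
    (T : X → X), Continuous T ∧ TotallyTransitive T ∧
    ∃ x : X, Dense (range fun n : ℕ => T^[n] x) ∧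
      ∃ F : X → ℂ, Continuous F ∧ ∀ n ∈ S, F (T^[n] x) = f n

section

variable {X : Type} [MetricSpace X] [CompactSpace X] {T : X → X}

lemma surj (hT : Continuous T) (ht : TotallyTransitive T) : Function.Surjective T := by
  have hcl : IsClosed (range T) := (isCompact_range hT).isClosed
  intro z
  by_contra hz
  have hopen : IsOpen (range T)ᶜ := hcl.isOpen_compl
  obtain ⟨n, hn, y, -, hy⟩ := ht 1 le_rfl univ (range T)ᶜ isOpen_univ hopen ⟨z, trivial⟩
    ⟨z, fun ⟨w, hw⟩ => hz ⟨w, hw⟩⟩
  apply hy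
  rw [Function.iterate_one]
  obtain ⟨m, rfl⟩ : ∃ m, n = m + 1 := ⟨n - 1, by omega⟩
  rw [Function.iterate_succ_apply']
  exact mem_range_self _

/-- the orbit along any residue class is dense -/
lemma residue_dense (hT : Continuous T) (ht : TotallyTransitive T) {x : X}
    (hx : Dense (range fun n : ℕ => T^[n] x)) {M : ℕ} (hM : 1 ≤ M) (b : ℕ) :
    Dense (range fun n : ℕ => T^[M * n + b] x) := by
  have hs := surj hT ht
  -- one of the closures has interior
  let Y : ℕ → Set X := fun a => closure (range fun n : ℕ => T^[M * n + a] x)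
  have hYcl : ∀ a, IsClosed (Y a) := fun a => isClosed_closure
  have hcover : ⋃ a : Fin M, Y a = univ := by
    have h1 : IsClosed (⋃ a : Fin M, Y a) := isClosed_iUnion_of_finite fun a => hYcl a
    have h2 : (range fun n : ℕ => T^[n] x) ⊆ ⋃ a : Fin M, Y a := by
      rintro _ ⟨n, rfl⟩
      refine mem_iUnion.2 ⟨⟨n % M, Nat.mod_lt _ hM⟩, subset_closure ⟨n / M, ?_⟩⟩
      show T^[M * (n / M) + n % M] x = T^[n] x
      rw [Nat.div_add_mod]
    rw [← univ_subset_iff, ← hx.closure_eq]
    exact h1.closure_subset_iff.2 h2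
  have hne : Nonempty X := ⟨x⟩
  obtain ⟨a, ha⟩ := nonempty_interior_of_iUnion_of_closed (fun a : Fin M => hYcl a) hcover
  -- this closure is the whole space
  have hinv : ∀ n, ∀ z ∈ Y a, (T^[M])^[n] z ∈ Y a := by
    intro n
    have hc : Continuous ((T^[M])^[n]) := (hT.iterate M).iterate n
    intro z hz
    refine map_mem_closure hc hz ?_
    rintro _ ⟨i, rfl⟩
    refine ⟨i + n, ?_⟩
    show T^[M * (i + n) + a] x = (T^[M])^[n] (T^[M * i + a] x)
    rw [← Function.iterate_mul, ← Function.iterate_add_apply]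
    congr 1; ring
  have hfull : Y a = univ := by
    have hd : Dense (Y a) := by
      rw [dense_iff_inter_open]
      intro V hV hVne
      obtain ⟨n, -, z, hz1, hz2⟩ := ht M hM _ V isOpen_interior hV ha hVne
      exact ⟨_, hz2, hinv n z (interior_subset hz1)⟩
    rw [← hd.closure_eq, (hYcl a).closure_eq]
  -- hence all of them are
  have hda : Dense (range fun n : ℕ => T^[M * n + a] x) := dense_iff_closure_eq.2 hfull
  have hsurj : Function.Surjective (T^[b + M - a]) := hs.iterate _
  have h3 : Dense ((T^[b + M - a]) '' (range fun n : ℕ => T^[M * n + a] x)) :=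
    hsurj.denseRange.dense_image (hT.iterate _) hda
  refine h3.mono ?_
  rintro _ ⟨_, ⟨n, rfl⟩, rfl⟩
  refine ⟨n + 1, ?_⟩
  show T^[M * (n + 1) + b] x = T^[b + M - a] (T^[M * n + a] x)
  rw [← Function.iterate_add_apply]
  congr 1
  have h4 := a.2
  have h5 : M * (n + 1) = M * n + M := by ring
  omega

end

/-- No syndetic set is a weak interpolation set of order `2` for the class of totally transitive
systems. -/
theorem result (S : Set ℕ) (hS : Syndetic S) : ¬ WeakInterpolation S 2 := by
  rintro hW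
  obtain ⟨L, hL⟩ := hS
  set B := L + 1 with hB
  -- the residue of the block is coded by its bits
  let f : ℕ → ℕ := fun n => if Nat.testBit (((n - 1) / B) % 2 ^ B) ((n - 1) % B) then 1 else 0
  obtain ⟨X, _, _, T, hT, ht, x, hx, F, hF, hFx⟩ := hW f (fun n _ => by
    simp only [f]; split_ifs <;> norm_num)
  classical
  -- the residue which is incompatible with the first block
  let g : ℕ → Bool := fun s => decide (1 / 2 ≤ ‖F (T^[1 + s] x) - 1‖)
  obtain ⟨r, hr, hrb⟩ : ∃ r < 2 ^ B, ∀ s < B, Nat.testBit r s = g s := by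
    refine ⟨(BitVec.ofFnLE (fun s : Fin B => g s)).toNat, BitVec.isLt _, fun s hs => ?_⟩
    rw [BitVec.testBit_toNat]
    simp [hs]
  have hM : 1 ≤ B * 2 ^ B := Nat.one_le_iff_ne_zero.2 (by positivity)
  have hd := residue_dense hT ht hx hM (1 + B * r)
  have hopen : IsOpen {z : X | ∀ s < B, ‖F (T^[s] z) - F (T^[1 + s] x)‖ < 1 / 2} := by
    have : {z : X | ∀ s < B, ‖F (T^[s] z) - F (T^[1 + s] x)‖ < 1 / 2} =
        ⋂ s ∈ Finset.range B, {z : X | ‖F (T^[s] z) - F (T^[1 + s] x)‖ < 1 / 2} := by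
      ext z; simp
    rw [this]
    refine isOpen_biInter_finset fun s _ => isOpen_lt ?_ continuous_const
    exact ((hF.comp (hT.iterate s)).sub continuous_const).norm
  obtain ⟨_, hz, n, rfl⟩ := hd.inter_open_nonempty _ hopen ⟨T^[1] x, fun s _ => by
    rw [← Function.iterate_add_apply, add_comm s 1, sub_self, norm_zero]; norm_num⟩
  -- the block meets `S`
  obtain ⟨k, hk, hk1, hk2⟩ := hL (B * 2 ^ B * n + (1 + B * r)) (by omega)
  obtain ⟨s, rfl⟩ : ∃ s, k = B * 2 ^ B * n + (1 + B * r) + s :=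
    ⟨k - (B * 2 ^ B * n + (1 + B * r)), by omega⟩
  have hs : s < B := by omega
  have h1 := hz s hs
  simp only at h1
  rw [← Function.iterate_add_apply, add_comm s, hFx _ hk] at h1
  -- the value of `f`
  have hf : f (B * 2 ^ B * n + (1 + B * r) + s) = if g s then 1 else 0 := by
    have e1 : B * 2 ^ B * n + (1 + B * r) + s - 1 = B * (2 ^ B * n + r) + s := by
      rw [show B * 2 ^ B * n + (1 + B * r) + s = B * (2 ^ B * n + r) + s + 1 by ring]; rfl
    have e2 : (B * (2 ^ B * n + r) + s) / B = 2 ^ B * n + r := by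
      rw [Nat.mul_add_div (by omega), Nat.div_eq_of_lt hs, add_zero]
    have e3 : (B * (2 ^ B * n + r) + s) % B = s := by
      rw [Nat.mul_add_mod, Nat.mod_eq_of_lt hs]
    have e4 : (2 ^ B * n + r) % 2 ^ B = r := by
      rw [Nat.mul_add_mod, Nat.mod_eq_of_lt hr]
    simp only [f]
    rw [e1, e2, e3, e4, hrb s hs]
  rw [hf] at h1
  by_cases hg : 1 / 2 ≤ ‖F (T^[1 + s] x) - 1‖
  · have hgs : g s = true := by simp only [g]; exact decide_eq_true hg
    rw [hgs, if_pos rfl, Nat.cast_one, norm_sub_rev] at h1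
    linarith
  · have hgs : g s = false := by simp only [g]; exact decide_eq_false hg
    rw [hgs] at h1
    simp only [Bool.false_eq_true, if_false, Nat.cast_zero, zero_sub, norm_neg] at h1
    push Not at hg
    have h2 : ‖(1 : ℂ)‖ ≤ ‖F (T^[1 + s] x)‖ + ‖F (T^[1 + s] x) - 1‖ := by
      have := norm_sub_le (F (T^[1 + s] x)) (F (T^[1 + s] x) - 1)
      rwa [sub_sub_cancel] at this
    rw [norm_one] at h2
    linarith

end Pool.Agent.Results.MP_816335_an.NoSyndeticOrderTwo
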